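import Pool.Agent.H82.BZ.Final

/-!
# Boltzmann equation on the torus: no energy on the ballistic scale near a singular time

`IsSolution B T f` (file `Pool/Agent/H82/BZ/Defs.lean`): `f(t, x, v) ≥ 0` is a solution on `[0, T)`
of the inhomogeneous Boltzmann equation on `𝕋^d × ℝ^d` with an arbitrary collision kernel `B`
(non-cutoff kernels included), continuous and of rapid decay in `v` locally uniformly in `t < T`,
which satisfies the equation in the weak form and the entropy inequality.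

`massNear f x₀ r t` and `energyNear f x₀ r t` are the mass `∫ ρ dx` and the energy `∫ E dx` in the
ball of radius `r` about `x₀`, where `ρ = ∫ f dv` and `E = ∫ f |v|² dv`.

Nothing is assumed on `ρ`, `E` for `t → T`; in particular `f` may develop an implosion singularity
at `x₀` for `t → T`. The theorem gives bounds which are uniform in `x₀` and in `t < T`, with
constants which depend only on the total mass, energy and entropy of the initial data:

* (virial bound) `∫_{t₁}^{t₂} (energy in B_r(x₀)) dt ≤ 16 r (√(M E) + 8 E (t₂ - t₁))`;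
* (mass) the mass in `B_r(x₀)` is at most `C / log (1 / r)`;
* (ballistic scale) on every time interval of length `τ` the mean of the energy in `B_{Aτ}(x₀)` is
  at most `C A / √(log (1 / τ))`;
* (few times) for every `e > 0` the times `t ∈ [T - τ, T)` at which the ball of radius `A (T - t)`
  about `x₀` contains the energy `e` have measure at most `C A τ / (e √(log (1 / τ))) = o(τ)`;
* so for `A`, `e > 0` the energy `e` cannot be contained in the ball of radius `A (T - t)` for all
  `t` close to `T`, and not even in the larger ball of radius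
  `e / (2 C) (T - t) √(log (1 / (T - t)))`: an implosion which concentrates a fixed energy does it on
  a scale which exceeds the ballistic scale `T - t` by an unbounded factor, at least
  `√(log (1 / (T - t)))` up to a constant, for a sequence of times; in particular it is not of the form
  `(T - t)^(-d) F((x - x₀) / (T - t), v)`.
-/

open MeasureTheory Set Filter Topology

noncomputable section

namespace Pool.Agent.Results.MP_187b32_an.BallisticScale

open Pool.Agent.H82.BZ

theorem result (d : ℕ) (hd : 1 ≤ d) :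
    (∀ (B : ℝ → ℝ → ℝ) (T : ℝ) (f : ℝ → V d → V d → ℝ), IsSolution B T f →
      ∀ (x₀ : V d) (r t₁ t₂ : ℝ), 0 < r → r ≤ 1 / 7 → 0 ≤ t₁ → t₁ ≤ t₂ → t₂ < T →
        ∫ t in t₁..t₂, energyNear f x₀ r t ≤
          16 * r * (Real.sqrt (mass f 0 * energy f 0) + 8 * energy f 0 * (t₂ - t₁))) ∧
    ∀ E H : ℝ, ∃ C : ℝ, 0 < C ∧
      ∀ (B : ℝ → ℝ → ℝ) (T : ℝ) (f : ℝ → V d → V d → ℝ), 0 < T → IsSolution B T f →
        energy f 0 ≤ E → entropy f 0 ≤ H → ∀ x₀ : V d,
          (∀ r t : ℝ, 0 < r → r ≤ 1 / 4 → 0 ≤ t → t < T →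
            massNear f x₀ r t ≤ C / Real.log (1 / r)) ∧
          (∀ A τ t₁ t₂ : ℝ, 1 ≤ A → 0 < τ → τ ≤ 1 / 10 → 4 * A ^ 2 * τ * Real.log (1 / τ) ≤ 1 →
            0 ≤ t₁ → t₁ ≤ t₂ → t₂ < T → t₂ - t₁ ≤ τ →
              ∫ t in t₁..t₂, energyNear f x₀ (A * τ) t ≤
                C * A * τ / Real.sqrt (Real.log (1 / τ))) ∧
          (∀ A τ e : ℝ, 1 ≤ A → 0 < τ → τ ≤ 1 / 10 → 4 * A ^ 2 * τ * Real.log (1 / τ) ≤ 1 →
            0 < e →
              volume {t : ℝ | 0 ≤ t ∧ T - τ ≤ t ∧ t < T ∧ e ≤ energyNear f x₀ (A * (T - t)) t} ≤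
                ENNReal.ofReal (C * A * τ / Real.sqrt (Real.log (1 / τ)) / e)) ∧
          (∀ A e t₀ : ℝ, 0 < e → t₀ < T →
            ∃ t, t₀ < t ∧ 0 ≤ t ∧ t < T ∧ energyNear f x₀ (A * (T - t)) t < e) ∧
          ∀ e t₀ : ℝ, 0 < e → t₀ < T →
            ∃ t, t₀ < t ∧ 0 ≤ t ∧ t < T ∧
              energyNear f x₀ (e / (2 * C) * (T - t) * Real.sqrt (Real.log (1 / (T - t)))) t < e := by
  refine ⟨fun B T f hf x₀ r t₁ t₂ hr hr1 h0 h1 h2 => part_one hf x₀ hr hr1 h0 h1 h2, ?_⟩
  intro E H
  set K : ℝ := 8 * (2 * Real.sqrt (2 * C₁ d E H * E) + 3 * E) with hK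
  have hC₁ : 0 ≤ C₁ d E H := abs_nonneg _
  set C : ℝ := 2 * C₁ d E H + |K| + 1 with hC
  have hC0 : 0 < C := by positivity
  have hKC : K ≤ C := by
    have := le_abs_self K
    rw [hC]; linarith
  refine ⟨C, hC0, fun B T f hT hf hE hH x₀ => ?_⟩
  have few : ∀ A τ e : ℝ, 1 ≤ A → 0 < τ → τ ≤ 1 / 10 → 4 * A ^ 2 * τ * Real.log (1 / τ) ≤ 1 →
      0 < e →
        volume {t : ℝ | 0 ≤ t ∧ T - τ ≤ t ∧ t < T ∧ e ≤ energyNear f x₀ (A * (T - t)) t} ≤
          ENNReal.ofReal (C * A * τ / Real.sqrt (Real.log (1 / τ)) / e) := by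
    intro A τ e hA hτ hτ1 hAτ he
    refine (few_times hd hf hH hE x₀ hA hτ hτ1 hAτ he).trans (ENNReal.ofReal_le_ofReal ?_)
    rw [← hK]
    have hA0 : 0 ≤ A := by linarith
    gcongr
  have mono : ∀ r r' t : ℝ, r ≤ r' → 0 ≤ t → t < T →
      energyNear f x₀ r t ≤ energyNear f x₀ r' t := by
    intro r r' t hrr ht0 ht
    rw [energyNear_eq, energyNear_eq]
    refine Weight.mono hf (weight_inn_sq x₀ _) (weight_inn_sq x₀ _) ?_ ht0 ht
    intro p _
    refine mul_le_mul_of_nonneg_right ?_ (sq_nonneg _)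
    unfold inn
    split_ifs with g g' g'
    · exact le_rfl
    · obtain ⟨n, hn⟩ := g
      exact absurd ⟨n, hn.trans hrr⟩ g'
    · norm_num
    · exact le_rfl
  have hlog : Tendsto (fun τ : ℝ => Real.log (1 / τ)) (𝓝[>] 0) atTop := by
    have h := Real.tendsto_log_nhdsGT_zero
    have h2 := tendsto_neg_atBot_atTop.comp h
    refine h2.congr fun τ => ?_
    simp [Real.log_inv]
  refine ⟨?_, ?_, few, ?_, ?_⟩
  · intro r t hr hr1 h0 h1
    refine (massNear_le hf x₀ hr h0 h1).trans ?_
    refine (Mo_bound' hd hf hH hE x₀ (by positivity) (by linarith) h0 h1).trans ?_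
    have hL : 0 < Real.log (1 / r) := Real.log_pos (by rw [lt_div_iff₀ hr]; linarith)
    have h2 : Real.log (1 / r) / 2 ≤ Real.log (1 / (2 * r)) := by
      have h3 : Real.log (2 * r) ≤ Real.log (Real.sqrt r) := by
        apply Real.log_le_log (by positivity)
        apply Real.le_sqrt_of_sq_le
        nlinarith
      rw [Real.log_sqrt hr.le] at h3
      rw [one_div, one_div, Real.log_inv, Real.log_inv]
      linarith
    calc C₁ d E H / Real.log (1 / (2 * r)) ≤ C₁ d E H / (Real.log (1 / r) / 2) := by gcongr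
      _ = 2 * C₁ d E H / Real.log (1 / r) := by field_simp
      _ ≤ C / Real.log (1 / r) := by
        have : 2 * C₁ d E H ≤ C := by rw [hC]; linarith [abs_nonneg K]
        gcongr
  · intro A τ t₁ t₂ hA hτ hτ1 hAτ h0 h1 h2 h3
    have hr : 0 ≤ A * τ := by positivity
    refine (integral_energyNear_le hf x₀ hr h0 h1 h2).trans ?_
    refine (ballistic hd hf hH hE x₀ hA hτ hτ1 hAτ h0 h1 h2 h3).trans ?_
    rw [← hK]
    have hA0 : 0 ≤ A := by linarith
    gcongr
  · intro A e t₀ he ht₀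
    by_contra hcon
    push Not at hcon
    -- the energy `e` is in the ball for all `t > max t₀ 0`
    set A' : ℝ := max A 1 with hA'
    have hA'1 : 1 ≤ A' := le_max_right _ _
    set L₀ : ℝ := (2 * C * A' / e) ^ 2 + 1 with hL₀
    have hlim : Tendsto (fun τ : ℝ => 4 * A' ^ 2 * (τ * Real.log (1 / τ))) (𝓝[>] 0) (𝓝 0) := by
      have h := tendsto_log_mul_rpow_nhdsGT_zero (r := 1) one_pos
      have h2 : Tendsto (fun τ : ℝ => 4 * A' ^ 2 * -(Real.log τ * τ ^ (1 : ℝ))) (𝓝[>] 0)
          (𝓝 (4 * A' ^ 2 * -0)) := (h.neg).const_mul _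
      rw [neg_zero, mul_zero] at h2
      refine h2.congr fun τ => ?_
      rw [Real.rpow_one, one_div, Real.log_inv]; ring
    have hlim2 := hlog
    have ev1 := hlim.eventually (gt_mem_nhds (show (0 : ℝ) < 1 by norm_num))
    have ev2 := hlim2.eventually_gt_atTop L₀
    have ev3 : ∀ᶠ τ : ℝ in 𝓝[>] 0, τ < min (1 / 10) (min (T - t₀) T) :=
      nhdsWithin_le_nhds (gt_mem_nhds (by
        refine lt_min (by norm_num) (lt_min (by linarith) hT)))
    have ev4 : ∀ᶠ τ : ℝ in 𝓝[>] 0, 0 < τ := self_mem_nhdsWithin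
    obtain ⟨τ, h1, h2, h3, h4⟩ := (ev1.and (ev2.and (ev3.and ev4))).exists
    have h5 : τ ≤ 1 / 10 := (h3.trans_le (min_le_left _ _)).le
    have h6 : τ < T - t₀ := h3.trans_le ((min_le_right _ _).trans (min_le_left _ _))
    have h7 : τ < T := h3.trans_le ((min_le_right _ _).trans (min_le_right _ _))
    have h8 := few A' τ e hA'1 h4 h5 (by nlinarith) he
    have hsub : Ioo (T - τ) T ⊆
        {t : ℝ | 0 ≤ t ∧ T - τ ≤ t ∧ t < T ∧ e ≤ energyNear f x₀ (A' * (T - t)) t} := by
      intro t ht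
      have ht0 : 0 ≤ t := by linarith [ht.1]
      refine ⟨ht0, ht.1.le, ht.2, ?_⟩
      exact (hcon t (by linarith [ht.1]) ht0 ht.2).trans
        (mono _ _ t (mul_le_mul_of_nonneg_right (le_max_left _ _) (by linarith [ht.2])) ht0 ht.2)
    have h9 := (measure_mono hsub).trans h8
    rw [Real.volume_Ioo, show T - (T - τ) = τ by ring] at h9
    have h10 : τ ≤ C * A' * τ / Real.sqrt (Real.log (1 / τ)) / e := by
      have hL0 : 0 < Real.log (1 / τ) := lt_trans (by positivity) h2
      exact (ENNReal.ofReal_le_ofReal_iff (by positivity)).mp h9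
    have hL0 : 0 < Real.log (1 / τ) := lt_trans (by positivity) h2
    have hs : 2 * C * A' / e < Real.sqrt (Real.log (1 / τ)) := by
      apply Real.lt_sqrt_of_sq_lt
      linarith
    have hs0 : 0 < Real.sqrt (Real.log (1 / τ)) := Real.sqrt_pos.mpr hL0
    rw [div_div, le_div_iff₀ (by positivity)] at h10
    rw [div_lt_iff₀ he] at hs
    have h11 : Real.sqrt (Real.log (1 / τ)) * e ≤ C * A' := by
      have := mul_le_mul_of_nonneg_left hs.le h4.le
      by_contra hne
      push Not at hne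
      have := mul_lt_mul_of_pos_left hne h4
      nlinarith
    have h12 : 0 < C * A' := by positivity
    nlinarith
  · intro e t₀ he ht₀
    by_contra hcon
    push Not at hcon
    have hlim : Tendsto (fun τ : ℝ => 2 * e ^ 2 / C ^ 2 * (τ * Real.log (1 / τ) ^ 2)) (𝓝[>] 0)
        (𝓝 0) := by
      have h := tendsto_log_mul_rpow_nhdsGT_zero (r := 1 / 2) (by norm_num)
      have h2 : Tendsto (fun τ : ℝ => 2 * e ^ 2 / C ^ 2 * (Real.log τ * τ ^ (1 / 2 : ℝ)) ^ 2)
          (𝓝[>] 0) (𝓝 (2 * e ^ 2 / C ^ 2 * 0 ^ 2)) := (h.pow 2).const_mul _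
      rw [zero_pow two_ne_zero, mul_zero] at h2
      refine h2.congr' ?_
      filter_upwards [self_mem_nhdsWithin] with τ hτ
      have hτ' : 0 < τ := hτ
      rw [mul_pow, ← Real.sqrt_eq_rpow, Real.sq_sqrt hτ'.le, one_div, Real.log_inv]
      ring
    have ev1 := hlim.eventually (gt_mem_nhds (show (0 : ℝ) < 1 by norm_num))
    have ev2 := hlog.eventually_gt_atTop (2 * C ^ 2 / e ^ 2)
    have ev3 : ∀ᶠ τ : ℝ in 𝓝[>] 0, τ < min (1 / 10) (min (T - t₀) T) :=
      nhdsWithin_le_nhds (gt_mem_nhds (by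
        refine lt_min (by norm_num) (lt_min (by linarith) hT)))
    have ev4 : ∀ᶠ τ : ℝ in 𝓝[>] 0, 0 < τ := self_mem_nhdsWithin
    obtain ⟨τ, h1, h2, h3, h4⟩ := (ev1.and (ev2.and (ev3.and ev4))).exists
    have h5 : τ ≤ 1 / 10 := (h3.trans_le (min_le_left _ _)).le
    have h6 : τ < T - t₀ := h3.trans_le ((min_le_right _ _).trans (min_le_left _ _))
    have h7 : τ < T := h3.trans_le ((min_le_right _ _).trans (min_le_right _ _))
    obtain ⟨L, hL⟩ : ∃ L : ℝ, L = Real.log (1 / τ) := ⟨_, rfl⟩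
    rw [← hL] at h1 h2
    have hL0 : 0 < L := lt_trans (by positivity) h2
    have hsL : 0 < Real.sqrt L := Real.sqrt_pos.2 hL0
    obtain ⟨A', hA'⟩ : ∃ A' : ℝ, A' = e / (2 * C) * Real.sqrt (2 * L) := ⟨_, rfl⟩
    have hA'0 : 0 ≤ A' := by rw [hA']; positivity
    have hA'sq : A' ^ 2 = e ^ 2 * L / (2 * C ^ 2) := by
      rw [hA', mul_pow, Real.sq_sqrt (by positivity)]
      field_simp
    have hA'1 : 1 ≤ A' := by
      have h8 : (1 : ℝ) ^ 2 ≤ A' ^ 2 := by
        rw [hA'sq, one_pow, le_div_iff₀ (by positivity)]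
        rw [div_lt_iff₀ (by positivity)] at h2
        linarith
      exact (pow_le_pow_iff_left₀ zero_le_one hA'0 two_ne_zero).1 h8
    have h8 := few A' τ e hA'1 h4 h5 (by
      rw [← hL, hA'sq]
      have h9 : 4 * (e ^ 2 * L / (2 * C ^ 2)) * τ * L = 2 * e ^ 2 / C ^ 2 * (τ * L ^ 2) := by
        field_simp
        ring
      rw [h9]
      exact h1.le) he
    have hsub : Ioo (T - τ) (T - τ ^ 2) ⊆
        {t : ℝ | 0 ≤ t ∧ T - τ ≤ t ∧ t < T ∧ e ≤ energyNear f x₀ (A' * (T - t)) t} := by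
      intro t ht
      have ht0 : 0 ≤ t := by linarith [ht.1]
      have htτ : τ ^ 2 < T - t := by linarith [ht.2]
      have ht2 : 0 < T - t := lt_trans (by positivity) htτ
      have htT : t < T := by linarith
      refine ⟨ht0, ht.1.le, htT, ?_⟩
      refine (hcon t (by linarith [ht.1]) ht0 htT).trans (mono _ _ t ?_ ht0 htT)
      have h9 : Real.log (1 / (T - t)) ≤ 2 * L := by
        have h10 : Real.log (1 / (T - t)) ≤ Real.log (1 / τ ^ 2) :=
          Real.log_le_log (by positivity) (one_div_le_one_div_of_le (by positivity) htτ.le)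
        have h11 : Real.log (1 / τ ^ 2) = 2 * L := by
          rw [hL, one_div, one_div, Real.log_inv, Real.log_inv, Real.log_pow]
          push_cast
          ring
        linarith
      have h10 := Real.sqrt_le_sqrt h9
      calc e / (2 * C) * (T - t) * Real.sqrt (Real.log (1 / (T - t)))
          ≤ e / (2 * C) * (T - t) * Real.sqrt (2 * L) := by gcongr
        _ = A' * (T - t) := by rw [hA']; ring
    have h9 := (measure_mono hsub).trans h8
    rw [Real.volume_Ioo, ← hL] at h9
    have h10 : T - τ ^ 2 - (T - τ) ≤ C * A' * τ / Real.sqrt L / e := by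
      exact (ENNReal.ofReal_le_ofReal_iff (by positivity)).mp h9
    have h11 : C * A' * τ / Real.sqrt L / e = Real.sqrt 2 / 2 * τ := by
      rw [hA', Real.sqrt_mul (by norm_num)]
      field_simp
    rw [h11] at h10
    have h12 : Real.sqrt 2 < 3 / 2 := by
      rw [Real.sqrt_lt' (by norm_num)]
      norm_num
    nlinarith

end Pool.Agent.Results.MP_187b32_an.BallisticScale
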