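import Pool.Agent.H49.BZ.RadFin

open Topology Pool.Agent.H49.BZ

/-- An implosion of type I and Euler type (no symmetry, no exact self-similarity: the rescaled
moments converge along one sequence of times, in the mean on bounded sets of the logarithmic time
and the rescaled position, to those of local Maxwellians) of a classical solution of the Boltzmann equation has exponents with `a = d b` and
`1 / (d + γ) ≤ b < d / (2 (d + 1))`; in particular `2 + 2 / d - d < γ`, and no such implosion exists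
for `γ ≤ - 1 / 3` if `d = 3`, and for `γ ≤ 1` if `d = 2`. If moreover the limit velocity `U τ y` is
parallel to `y` for `y` near one ray `r e`, `0 < r` (for instance everywhere: spherical implosions,
or in an open cone), then `b ≤ (1 - 1 / √d) / 2`, hence `2 √d / (√d - 1) - d ≤ γ`, and no such
implosion exists for `γ < √3` if `d = 3` (in particular for hard spheres, `γ = 1`), and for
`γ < 2 + 2 √2` if `d = 2`. -/
theorem Pool.Agent.Results.MP_187b32_an.ImplosionExponents.result (d : ℕ) (hd : 2 ≤ d) (γ σ : ℝ)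
    (B : ℝ → ℝ → ℝ) (hB : IsKernel d γ σ B) (T : ℝ) (hT : 0 < T) (f : ℝ → E d → E d → ℝ)
    (hf : IsSolution B T f) (x₀ : E d) (a b : ℝ) (s : ℕ → ℝ) (R Θ : ℝ → E d → ℝ)
    (U : ℝ → E d → E d) (h : IsEulerFlow γ T f x₀ a b s R U Θ) :
    a = d * b ∧ 1 ≤ (d + γ) * b ∧ b < d / (2 * (d + 1)) ∧ 2 + 2 / d - d < γ ∧
      ((∃ e : E d, e ≠ 0 ∧ ∀ τ r : ℝ, 0 < r → ∀ᶠ y in 𝓝 (r • e), ∃ w : ℝ, U τ y = w • y) →
        b ≤ (1 - 1 / √d) / 2 ∧ 2 * √d / (√d - 1) - d ≤ γ) := by
  obtain ⟨h1, h5, h2, h3, h4⟩ := flow_exponents hd hB hT hf h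
  refine ⟨h1, h2, ?_, by linarith, fun hrad => ?_⟩
  · rw [lt_div_iff₀ (by positivity)]
    linarith
  · obtain ⟨e, he, hrad⟩ := hrad
    have hd2 : (2 : ℝ) ≤ d := by exact_mod_cast hd
    have ne : 0 < ‖e‖ := norm_pos_iff.2 he
    have key := speed_bound hf hT h hd (e := ‖e‖⁻¹ • e)
      (by rw [norm_smul, norm_inv, norm_norm, inv_mul_cancel₀ ne.ne']) fun τ r hr => by
        rw [smul_smul]
        exact hrad τ (r * ‖e‖⁻¹) (by positivity)
    have s1 : 1 < √(d : ℝ) := by
      rw [Real.lt_sqrt (by norm_num)]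
      linarith
    have s0 : 0 < √(d : ℝ) := by linarith
    have e1 : (1 : ℝ) / 2 - 1 / (2 * √d) = (1 - 1 / √d) / 2 := by field_simp
    have key2 : b ≤ (1 - 1 / √d) / 2 := by rw [← e1]; exact key
    refine ⟨key2, ?_⟩
    have p1 : 0 < d + γ := by
      by_contra hcon
      push Not at hcon
      nlinarith
    have p2 : 1 ≤ (d + γ) * ((1 - 1 / √d) / 2) := h2.trans (mul_le_mul_of_nonneg_left key2 p1.le)
    have e2 : (d + γ) * ((1 - 1 / √d) / 2) = (d + γ) * (√d - 1) / (2 * √d) := by
      field_simp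
    rw [e2, le_div_iff₀ (by positivity), one_mul] at p2
    rw [sub_le_iff_le_add, div_le_iff₀ (by linarith)]
    linarith
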