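import Mathlib
import Pool.Agent.H67.Boltz.Conf3
import Pool.Agent.H67.Boltz.Final

set_option autoImplicit false

/-!
# The Boltzmann equation: cores in which the solution is isotropic about a velocity field do not implode

If a classical solution of the Boltzmann equation (with any kernel) is, on a space-time core
`|x - x₀| < δ (T - t) ^ κ`, `t₀ < t < T`, with `0 ≤ κ < 1 / 2 + 1 / d`, isotropic in the velocity about a field `u(t, x)`
(for instance a local Maxwellian), then `ρ` and `E` are bounded on every smaller core as `t → T`. In particular (`κ = 0`)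
no implosion singularity can develop at `x₀`.
-/

open MeasureTheory Filter Topology Set
open scoped RealInnerProductSpace

namespace Pool.Agent.Results.MP_187b32_an.IsotropicCores

open Pool.Agent.H67.Boltz

theorem result {d : ℕ} (hd : 2 ≤ d) (B : ℝ → ℝ → ℝ) (T : ℝ) (f : ℝ → E d → E d → ℝ) (hf : ClassicalSolution B T f)
    (t₀ : ℝ) (ht₀ : 0 ≤ t₀) (ht₀T : t₀ < T) (x₀ : E d) (δ κ : ℝ) (hδ : 0 < δ) (hκ0 : 0 ≤ κ) (hκ : κ < 1 / 2 + 1 / d)
    (u : ℝ → E d → E d) (hu : ContDiffOn ℝ 3 (fun z : ℝ × E d => u z.1 z.2) (core t₀ T x₀ δ κ))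
    (hiso : ∀ t x, (t, x) ∈ core t₀ T x₀ δ κ → ∀ v w, ‖v - u t x‖ = ‖w - u t x‖ → f t x v = f t x w)
    (hvac : ∀ t x, (t, x) ∈ core t₀ T x₀ δ κ → ∃ v, f t x v ≠ 0) :
    (∀ δ' < δ, ∃ t₁, t₀ ≤ t₁ ∧ t₁ < T ∧ ∃ C : ℝ, ∀ t x, (t, x) ∈ core t₁ T x₀ δ' κ →
      rho (f t x) ≤ C ∧ energy (f t x) ≤ C) ∧
    (κ = 0 → ¬ Implosion T f x₀) := by
  have H : Iso B T f (core t₀ T x₀ δ κ) (fun z : ℝ × E d => u z.1 z.2) :=
    { sol := hf
      isOpen := isOpen_core t₀ T x₀ δ κ hκ0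
      time := fun z hz => ⟨ht₀.trans_lt hz.1, hz.2.1⟩
      smooth := hu.of_le (by norm_num)
      iso := fun z hz w w' h => hiso z.1 z.2 hz _ _ (by simpa using h)
      vac := fun z hz => hvac z.1 z.2 hz }
  have hR := H.rigid_general hd hu
  have h1 : ∀ δ' < δ, ∃ t₁, t₀ ≤ t₁ ∧ t₁ < T ∧ ∃ C : ℝ, ∀ t x, (t, x) ∈ core t₁ T x₀ δ' κ →
      rho (f t x) ≤ C ∧ energy (f t x) ≤ C := by
    intro δ' hδ'
    obtain ⟨t₁, h1, h2, C, hC⟩ := H.bounded hd hR ht₀T hδ hκ0 hκ δ' hδ'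
    exact ⟨t₁, h1, h2, C, fun t x h => hC (t, x) h⟩
  refine ⟨h1, ?_⟩
  rintro rfl
  obtain ⟨t₁, h2, h3, C, hC⟩ := h1 (δ / 2) (by linarith)
  refine no_implosion hf (ht₀.trans h2) h3 (half_pos hδ) (C := C) fun t x ht htT hx => (hC t x ⟨ht, htT, ?_⟩).1
  simpa using hx

end Pool.Agent.Results.MP_187b32_an.IsotropicCores
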