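import Pool.Agent.H49.BZ.PotFin

open Pool.Agent.H49.BZ

/-- An asymptotically self-similar implosion of Euler type of a classical solution of the Boltzmann
equation whose profile is irrotational, `U = ∇ φ` (no symmetry is assumed), with an entropy that
takes countably many values at the stagnation points, has `b ≤ (1 - 1 / √d) / 2`, and it needs
`2 √d / (√d - 1) - d ≤ γ`. So no such implosion exists for `γ < √3` if `d = 3`, and for
`γ < 2 + 2 √2` if `d = 2`. -/
theorem Pool.Agent.Results.MP_187b32_an.PotentialImplosions.result (d : ℕ) (hd : 2 ≤ d) (γ σ : ℝ)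
    (B : ℝ → ℝ → ℝ) (hB : IsKernel d γ σ B) (T : ℝ) (hT : 0 < T) (f : ℝ → E d → E d → ℝ)
    (hf : IsSolution B T f) (x₀ : E d) (a b : ℝ) (s : ℕ → ℝ) (R Θ φ : E d → ℝ) (U : E d → E d)
    (h : IsEulerFlow γ T f x₀ a b s (fun _ => R) (fun _ => U) (fun _ => Θ))
    (hφ : ∀ y, HasGradientAt φ (U y) y)
    (hS : ((fun y => d / 2 * Real.log (Θ y) - Real.log (R y)) ''
      {y | (1 - b) • y + U y = 0}).Countable) :
    2 * √d * b ≤ √d - 1 ∧ 2 * √d / (√d - 1) - d ≤ γ := by
  obtain ⟨hab, hb0, hk, hb1, -⟩ := flow_exponents hd hB hT hf h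
  have key := potential_bound hd hT hf hB h hφ hS
  have hd2 : (2 : ℝ) ≤ d := by exact_mod_cast hd
  have hs2 : √(d : ℝ) ^ 2 = d := Real.sq_sqrt (by linarith)
  have hs : 1 < √(d : ℝ) := by
    rw [show (1 : ℝ) = √1 by simp]
    exact Real.sqrt_lt_sqrt (by norm_num) (by linarith)
  have hb2 : b < 1 / 2 := by nlinarith
  have h1 : 1 ≤ √(d : ℝ) * (1 - 2 * b) := by
    have h2 : 1 ≤ (√(d : ℝ) * (1 - 2 * b)) ^ 2 := by
      rw [mul_pow, hs2]; exact key
    have h3 : 0 ≤ √(d : ℝ) * (1 - 2 * b) := mul_nonneg (by positivity) (by linarith)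
    nlinarith
  have h2 : 2 * √d * b ≤ √d - 1 := by linarith
  refine ⟨h2, ?_⟩
  have h3 : 0 < d + γ := by
    by_contra hcon
    push Not at hcon
    nlinarith
  have h4 : 2 * √d ≤ (d + γ) * (√d - 1) := by
    have h5 := mul_le_mul_of_nonneg_left h2 h3.le
    have h6 := mul_le_mul_of_nonneg_left hk (by positivity : 0 ≤ 2 * √(d : ℝ))
    nlinarith
  have h5 : 2 * √d / (√d - 1) ≤ d + γ := by
    rw [div_le_iff₀ (by linarith)]
    exact h4
  linarith
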